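import Pool.Agent.H72.EM.Basic

/-!
# Board `emc_modules`, row H1: chords and the cycle edges of colour `2` connect the host
-/

set_option autoImplicit false

open Finset Pool.Agent.H72.EM

namespace Pool.Agent.H49.EMC

variable {κ : ℕ}

/-- The relation is symmetric. -/
theorem stp_symm {V : Type} {τ : Dt V → Dt V} {col : Dt V → Fin 3} (h : IsPG τ)
    (hc : IsCol τ col) (d : Fin 3) {v w : V} (hs : stp τ col d v w) : stp τ col d w v := by
  obtain ⟨a, h1, h2⟩ := hs
  have e : ((τ (v, a)).1, (τ (v, a)).2) = τ (v, a) := rfl
  refine ⟨(τ (v, a)).2, ?_, ?_⟩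
  · rw [← h2, e, hc.inv]
    exact h1
  · rw [← h2, e, h.inv]

/-- The representative of a half of a block. -/
def rep : Bk κ × Bool → Hs κ
  | (b, false) => (b, some .ax)
  | (b, true) => (b, some .bx)

/-- The half of a block to which a vertex belongs. -/
def hf : Hs κ → Bk κ × Bool
  | (b, none) => (b, false)
  | (b, some .ax) => (b, false)
  | (b, some .ay) => (b, false)
  | (b, some .az) => (b, true)
  | (b, some .bv) => (b, true)
  | (b, some .bx) => (b, true)
  | (b, some .by') => (b, true)
  | (b, some .bz) => (nxB b, false)

theorem pf_H1 (h : T_GC) (hTI : T_TI) : T_H1 := by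
  intro κ c hc
  obtain ⟨hPG, hCol⟩ := hTI κ c hc
  set Cx : Hs κ → Hs κ → Prop := Relation.ReflTransGen (stp (ht c) hcol 1) with hCx
  have hsym : ∀ v w, Cx v w → Cx w v := by
    intro v w hvw
    induction hvw with
    | refl => exact Relation.ReflTransGen.refl
    | tail _ h2 ih => exact Relation.ReflTransGen.head (stp_symm hPG hCol 1 h2) ih
  have htr : ∀ u v w, Cx u v → Cx v w → Cx u w := fun u v w => Relation.ReflTransGen.trans
  have hone : ∀ v w, stp (ht c) hcol 1 v w → Cx v w := fun v w => Relation.ReflTransGen.single
  -- chords
  have chord : ∀ v : Hs κ, Cx v (sg c v) := by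
    rintro ⟨b, s⟩
    exact hone _ _ ⟨0, by simp [hcol], rfl⟩
  -- cycle edges
  have fwd : ∀ (b : Bk κ) (s : Option Sl), ncol s = 2 → Cx (b, s) (nx (b, s)) := by
    intro b s hs
    refine hone _ _ ⟨2, ?_, rfl⟩
    show ncol s ≠ 1
    rw [hs]
    decide
  have A1 : ∀ b : Bk κ, Cx (b, some .ax) (b, some .ay) := fun b => fwd b (some .ax) rfl
  have A2 : ∀ b : Bk κ, Cx (b, some .ay) (pvB b, some .bz) := by
    rintro ⟨i, o⟩
    rcases o with _ | j
    · exact chord ((i, none), some .ay)
    · exact chord ((i, some j), some .ay)
  have A3 : ∀ b : Bk κ, Cx (pvB b, some .bz) (b, none) := by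
    intro b
    have h1 := fwd (pvB b) (some .bz) rfl
    have h2 : nx (pvB b, some Sl.bz) = (b, none) := by
      show (nxB (pvB b), none) = (b, none)
      rw [nxB_pvB]
    rwa [h2] at h1
  have A4 : ∀ b : Bk κ, Cx (b, none) (b, some .ax) := fun b =>
    hsym _ _ (htr _ _ _ (A1 b) (htr _ _ _ (A2 b) (A3 b)))
  have B1 : ∀ b : Bk κ, Cx (b, some .bx) (b, some .by') := fun b => fwd b (some .bx) rfl
  have B2 : ∀ b : Bk κ, Cx (b, some .az) (b, some .bv) := fun b => fwd b (some .az) rfl
  have B3 : ∀ b : Bk κ, Cx (b, some .az) (b, some .bx) := by
    rintro ⟨i, o⟩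
    rcases o with _ | j
    · by_cases hi : i.val = 0
      · have h1 := chord ((i, none), some .az)
        have h2 : sg c ((i, none), some Sl.az) = ((i, none), some .bx) := by
          show (if i.val = 0 then ((i, none), some Sl.bx) else ((i, none), some Sl.by')) = _
          rw [if_pos hi]
        rwa [h2] at h1
      · have h1 := chord ((i, none), some .az)
        have h2 : sg c ((i, none), some Sl.az) = ((i, none), some .by') := by
          show (if i.val = 0 then ((i, none), some Sl.bx) else ((i, none), some Sl.by')) = _
          rw [if_neg hi]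
        rw [h2] at h1
        exact htr _ _ _ h1 (hsym _ _ (B1 _))
    · exact htr _ _ _ (chord ((i, some j), some .az)) (hsym _ _ (B1 _))
  have B4 : ∀ b : Bk κ, Cx (b, some .bv) (b, some .bx) := fun b =>
    htr _ _ _ (hsym _ _ (B2 b)) (B3 b)
  -- every vertex is connected to the representative of its half
  have hrep : ∀ v : Hs κ, Cx v (rep (hf v)) := by
    rintro ⟨b, s⟩
    rcases s with _ | s
    · exact A4 b
    · cases s with
      | ax => exact Relation.ReflTransGen.refl
      | ay => exact hsym _ _ (A1 b)
      | az => exact B3 b
      | bv => exact B4 b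
      | bx => exact Relation.ReflTransGen.refl
      | by' => exact hsym _ _ (B1 b)
      | bz =>
        have h1 := A2 (nxB b)
        rw [pvB_nxB] at h1
        exact hsym _ _ (htr _ _ _ (A1 (nxB b)) h1)
  -- an edge between two vertices connects their halves
  have hedge : ∀ u v : Hs κ, Cx u v → Cx (rep (hf u)) (rep (hf v)) := fun u v huv =>
    htr _ _ _ (hsym _ _ (hrep u)) (htr _ _ _ huv (hrep v))
  have hGS : ∀ u v : Bk κ × Bool, GS c u v → Cx (rep u) (rep v) := by
    intro u v huv
    cases huv with
    | link i => exact hedge ((i, none), none) _ (chord ((i, none), none))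
    | par i j b hij =>
      cases b with
      | false =>
        have h1 := chord ((i, some j), none)
        have h2 : sg c ((i, some j), none) = ((j, some i), none) := by
          show (if c i j = 0 then ((j, some i), some Sl.bv) else ((j, some i), none)) = _
          rw [if_neg hij]
        rw [h2] at h1
        exact hedge _ _ h1
      | true =>
        have h1 := chord ((i, some j), some .bv)
        have h2 : sg c ((i, some j), some Sl.bv) = ((j, some i), some .bv) := by
          show (if c i j = 0 then ((j, some i), none) else ((j, some i), some Sl.bv)) = _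
          rw [if_neg hij]
        rw [h2] at h1
        exact hedge _ _ h1
    | cross i j hij =>
      have h1 := chord ((i, some j), none)
      have h2 : sg c ((i, some j), none) = ((j, some i), some .bv) := by
        show (if c i j = 0 then ((j, some i), some Sl.bv) else ((j, some i), none)) = _
        rw [if_pos hij]
      rw [h2] at h1
      exact hedge _ _ h1
    | low i j hij =>
      have h1 := chord ((i, some j), some .ax)
      have h2 : sg c ((i, some j), some Sl.ax) = ((i, some j), some .bx) := by
        show (if j.val < i.val then ((i, some j), some Sl.bx)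
          else if i.val < j.val then ((i, some (dn j)), some Sl.bx)
          else if i.val = 0 then ((lst, none), some Sl.bx)
          else ((dn i, some lst), some Sl.bx)) = _
        rw [if_pos hij]
      rw [h2] at h1
      exact h1
    | row i j hij hj =>
      have h1 := chord ((i, some j), some .bx)
      have h2 : sg c ((i, some j), some Sl.bx) = ((i, some (up j)), some .ax) := by
        show (if j.val < i.val then ((i, some j), some Sl.ax)
          else if j.val < 2 * κ + 1 then ((i, some (up j)), some Sl.ax)
          else if i.val < 2 * κ + 1 then ((up i, some (up i)), some Sl.ax)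
          else ((zr, none), some Sl.by')) = _
        rw [if_neg (by omega), if_pos hj]
      rw [h2] at h1
      exact h1
    | nextrow i hi =>
      have h1 := chord ((i, some lst), some .bx)
      have h2 : sg c ((i, some lst), some Sl.bx) = ((up i, some (up i)), some .ax) := by
        show (if (lst : Ix κ).val < i.val then ((i, some lst), some Sl.ax)
          else if (lst : Ix κ).val < 2 * κ + 1 then ((i, some (up lst)), some Sl.ax)
          else if i.val < 2 * κ + 1 then ((up i, some (up i)), some Sl.ax)
          else ((zr, none), some Sl.by')) = _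
        have h3 := lst_val (κ := κ)
        rw [if_neg (by omega), if_neg (by omega), if_pos hi]
      rw [h2] at h1
      exact h1
    | twin i => exact chord ((i, none), some .ax)
    | shift i j h0 hj hi =>
      have h1 := chord ((i, none), some .bx)
      have h2 : sg c ((i, none), some Sl.bx) = ((j, none), some .bx) := by
        show (if i.val = 0 then ((i, none), some Sl.az)
          else if i.val = 2 * κ + 1 then ((zr, some zr), some Sl.ax)
          else if h : i.val ≤ κ then ((⟨i.val + κ, by omega⟩, none), some Sl.bx)
          else ((⟨i.val - κ, by omega⟩, none), some Sl.bx)) = _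
        rw [if_neg (by omega), if_neg (by omega), dif_pos hi]
        have e : (⟨i.val + κ, by omega⟩ : Ix κ) = j := Fin.ext hj.symm
        rw [e]
      rw [h2] at h1
      exact h1
    | start =>
      have h1 := chord (((lst : Ix κ), none), some .bx)
      have h2 : sg c (((lst : Ix κ), none), some Sl.bx) = ((zr, some zr), some .ax) := by
        have h3 := lst_val (κ := κ)
        show (if (lst : Ix κ).val = 0 then ((lst, none), some Sl.az)
          else if (lst : Ix κ).val = 2 * κ + 1 then ((zr, some zr), some Sl.ax)
          else if h : (lst : Ix κ).val ≤ κ then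
            ((⟨(lst : Ix κ).val + κ, by omega⟩, none), some Sl.bx)
          else ((⟨(lst : Ix κ).val - κ, by omega⟩, none), some Sl.bx)) = _
        rw [if_neg (by omega), if_pos h3]
      rw [h2] at h1
      exact h1
  have hEq : ∀ u v : Bk κ × Bool, Relation.EqvGen (GS c) u v → Cx (rep u) (rep v) := by
    intro u v huv
    induction huv with
    | rel _ _ hr => exact hGS _ _ hr
    | refl _ => exact Relation.ReflTransGen.refl
    | symm _ _ _ ih => exact hsym _ _ ih
    | trans _ _ _ _ _ ih1 ih2 => exact htr _ _ _ ih1 ih2
  intro v w
  exact htr _ _ _ (hrep v) (htr _ _ _ (hEq _ _ (h κ c hc (hf v) (hf w))) (hsym _ _ (hrep w)))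

end Pool.Agent.H49.EMC
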